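import Pool.Agent.R623.LM.D

/-! Level masses with costs, part 4: the flux argument for two different costs. -/

set_option autoImplicit false

namespace Pool.Agent.R623.LN
open Finset Filter Topology MeasureTheory

/-- a recursion with negative coefficient of absolute value less than one -/
theorem rec_lim {a : ℕ → ℝ} {q L : ℝ} (hq0 : 0 ≤ q) (hq1 : q < 1)
    (h : Tendsto (fun K => a (K + 1) + q * a K) atTop (𝓝 L)) : Tendsto a atTop (𝓝 (L / (1 + q))) := by
  have hq : 0 < 1 - q := by linarith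
  have h1q : 0 < 1 + q := by linarith
  set b : ℕ → ℝ := fun K => a K - L / (1 + q) with hb
  have hstep : ∀ K, b (K + 1) + q * b K = a (K + 1) + q * a K - L := by
    intro K
    simp only [hb]
    field_simp
    ring
  rw [Metric.tendsto_atTop]
  intro ε hε
  obtain ⟨K₁, hK₁⟩ := (Metric.tendsto_atTop.1 h) (ε / 4 * (1 - q)) (by positivity)
  have hind : ∀ n, |b (K₁ + n)| ≤ q ^ n * |b K₁| + ε / 4 := by
    intro n
    induction n with
    | zero => simp; positivity
    | succ n ih =>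
      have h2 := (hK₁ (K₁ + n) (Nat.le_add_right _ _)).le
      rw [Real.dist_eq, ← hstep] at h2
      have e : b (K₁ + (n + 1)) = (b (K₁ + n + 1) + q * b (K₁ + n)) - q * b (K₁ + n) := by
        rw [← Nat.add_assoc]; ring
      rw [e]
      refine (abs_sub _ _).trans ?_
      rw [abs_mul, abs_of_nonneg hq0]
      have h3 := mul_le_mul_of_nonneg_left ih hq0
      have e2 : q * (q ^ n * |b K₁| + ε / 4) = q ^ (n + 1) * |b K₁| + q * (ε / 4) := by ring
      rw [e2] at h3
      nlinarith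
  have hpow : Tendsto (fun n : ℕ => q ^ n * |b K₁|) atTop (𝓝 0) := by
    have := (tendsto_pow_atTop_nhds_zero_of_lt_one hq0 hq1).mul_const |b K₁|
    rwa [zero_mul] at this
  obtain ⟨N, hN⟩ := (Metric.tendsto_atTop.1 hpow) (ε / 4) (by positivity)
  refine ⟨K₁ + N, fun K hK => ?_⟩
  obtain ⟨n, rfl⟩ : ∃ n, K = K₁ + n := ⟨K - K₁, by omega⟩
  have h4 := hN n (by omega)
  rw [Real.dist_eq, sub_zero, abs_of_nonneg (by positivity)] at h4
  have h5 := hind n
  rw [Real.dist_eq]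
  have h6 : a (K₁ + n) - L / (1 + q) = b (K₁ + n) := rfl
  rw [h6]
  linarith

theorem flux2 {d : ℕ} (hd : 0 < d) {ξ : ℕ → ℝ} {e : ℕ → ℕ} (he : ∀ i < d, e i ≤ 1)
    {Ψ : ℕ → ℝ → ℝ} {f : ℝ → ℝ} {μ : ℕ → ℝ} {δ C t₀ : ℝ}
    (hint : ∀ K a b, IntervalIntegrable (Ψ K) volume a b) (hC : 0 ≤ C)
    (hh : ∀ K t, t₀ ≤ t → |Ψ (K + 2) t - (∑ i ∈ range d, Ψ (K + e i) (t + ξ i)) / d| ≤ C / t ^ 2)
    (hf : ∀ Y : ℝ, ∃ K₀ : ℕ, ∀ K, K₀ ≤ K → ∀ t, t ≤ Y → Ψ K t = f t)
    (hv : ∀ K, ∃ T₀ : ℝ, ∀ t, T₀ ≤ t → Ψ K t = 0)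
    (hl : Tendsto f atTop (𝓝 δ))
    (hm : ∀ τ : ℝ, ∃ K₀ : ℕ, ∀ K, K₀ ≤ K → ∃ T₁ : ℝ, ∀ T, T₁ ≤ T →
      (∫ t in τ..T, Ψ (K + 1) t) - ∫ t in τ..T, Ψ K t = μ K) :
    Tendsto (fun K => μ (K + 1) + (∑ i ∈ range d, (1 - (e i : ℝ))) / d * μ K) atTop
      (𝓝 (-(∑ i ∈ range d, ξ i) / d * δ)) := by
  have hdR : (0 : ℝ) < d := by exact_mod_cast hd
  have hd1 : (1 : ℝ) ≤ d := by exact_mod_cast hd
  set c : ℝ := ∑ i ∈ range d, |ξ i| with hc
  have hc0 : 0 ≤ c := sum_nonneg fun i _ => abs_nonneg _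
  have hci : ∀ i ∈ range d, |ξ i| ≤ c := fun i hi =>
    single_le_sum (f := fun i => |ξ i|) (fun j _ => abs_nonneg _) hi
  rw [Metric.tendsto_atTop]
  intro ε hε
  obtain ⟨T₂, hT₂⟩ := (Metric.tendsto_atTop.1 hl) (ε / (4 * (c + 1))) (by positivity)
  set τ : ℝ := max (max t₀ 1) (max (T₂ + c) (4 * C / ε)) with hτ
  have hτ0 : t₀ ≤ τ := (le_max_left _ _).trans (le_max_left _ _)
  have hτ1 : 1 ≤ τ := (le_max_right _ _).trans (le_max_left _ _)
  have hτ2 : T₂ + c ≤ τ := (le_max_left _ _).trans (le_max_right _ _)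
  have hτ3 : 4 * C / ε ≤ τ := (le_max_right _ _).trans (le_max_right _ _)
  have hτpos : 0 < τ := by linarith
  have hCτ : C / τ ≤ ε / 4 := by
    rw [div_le_iff₀ hε] at hτ3
    rw [div_le_div_iff₀ hτpos (by norm_num)]
    linarith
  obtain ⟨K₁, hK₁⟩ := hf (τ + c)
  obtain ⟨K₂, hK₂⟩ := hm τ
  refine ⟨max K₁ K₂, fun K hK => ?_⟩
  have hKl : K₁ ≤ K := (le_max_left _ _).trans hK
  have hKr : K₂ ≤ K := (le_max_right _ _).trans hK
  obtain ⟨T₁, hT₁⟩ := hK₂ K hKr
  obtain ⟨T₁', hT₁'⟩ := hK₂ (K + 1) (by omega)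
  obtain ⟨T₀, hT₀⟩ := hv K
  obtain ⟨T₀', hT₀'⟩ := hv (K + 1)
  set T : ℝ := max (max (max T₁ T₁') (max T₀ T₀' + c)) τ with hT
  have hTa : T₁ ≤ T := (le_max_left _ _).trans ((le_max_left _ _).trans (le_max_left _ _))
  have hTa' : T₁' ≤ T := (le_max_right _ _).trans ((le_max_left _ _).trans (le_max_left _ _))
  have hTb : max T₀ T₀' + c ≤ T := (le_max_right _ _).trans (le_max_left _ _)
  have hTb1 : T₀ + c ≤ T := (add_le_add_left (le_max_left _ _) c).trans hTb
  have hTb2 : T₀' + c ≤ T := (add_le_add_left (le_max_right _ _) c).trans hTb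
  have hTc : τ ≤ T := le_max_right _ _
  have hmK := hT₁ T hTa
  have hmK' := hT₁' T hTa'
  -- properties of the two functions
  have hvan : ∀ i ∈ range d, ∀ t, T - c ≤ t → Ψ (K + e i) t = 0 := by
    intro i hi t ht
    have h1 := he i (mem_range.1 hi)
    rcases Nat.le_one_iff_eq_zero_or_eq_one.1 h1 with h2 | h2
    · rw [h2, Nat.add_zero]; exact hT₀ t (by linarith)
    · rw [h2]; exact hT₀' t (by linarith)
  -- the shifted integrals
  have hshift : ∀ i ∈ range d, ∫ t in τ..T, Ψ (K + e i) (t + ξ i) =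
      (∫ t in (τ + ξ i)..τ, Ψ (K + e i) t) + ∫ t in τ..T, Ψ (K + e i) t := by
    intro i hi
    have hx := abs_le.1 (hci i hi)
    rw [intervalIntegral.integral_comp_add_right (fun t => Ψ (K + e i) t) (ξ i)]
    have h1 : ∫ t in T..(T + ξ i), Ψ (K + e i) t = 0 := by
      have h2 : ∫ t in T..(T + ξ i), Ψ (K + e i) t = ∫ t in T..(T + ξ i), (0 : ℝ) := by
        apply intervalIntegral.integral_congr
        intro t ht
        apply hvan i hi
        have h3 := ht.1
        rcases le_total T (T + ξ i) with h4 | h4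
        · rw [min_eq_left h4] at h3; linarith
        · rw [min_eq_right h4] at h3; linarith [hx.1]
      rw [h2]; simp
    rw [← intervalIntegral.integral_add_adjacent_intervals (hint (K + e i) (τ + ξ i) τ)
        (hint (K + e i) τ (T + ξ i)),
      ← intervalIntegral.integral_add_adjacent_intervals (hint (K + e i) τ T)
        (hint (K + e i) T (T + ξ i)), h1, add_zero]
  have hintS : ∀ i ∈ range d, IntervalIntegrable (fun t => Ψ (K + e i) (t + ξ i)) volume τ T := by
    intro i _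
    have := (hint (K + e i) (τ + ξ i) (T + ξ i)).comp_add_right (ξ i)
    simpa using this
  have hei : ∀ i ∈ range d, ∫ t in τ..T, Ψ (K + e i) t = (∫ t in τ..T, Ψ (K + 1) t) -
      (1 - (e i : ℝ)) * μ K := by
    intro i hi
    have h1 := he i (mem_range.1 hi)
    rcases Nat.le_one_iff_eq_zero_or_eq_one.1 h1 with h2 | h2
    · rw [h2, Nat.add_zero, ← hmK]; push_cast; ring
    · rw [h2]; push_cast; ring
  have hsumint : ∫ t in τ..T, (∑ i ∈ range d, Ψ (K + e i) (t + ξ i)) / d =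
      (∑ i ∈ range d, ∫ t in (τ + ξ i)..τ, Ψ (K + e i) t) / d + (∫ t in τ..T, Ψ (K + 1) t) -
        (∑ i ∈ range d, (1 - (e i : ℝ))) / d * μ K := by
    rw [intervalIntegral.integral_div, intervalIntegral.integral_finsetSum hintS,
      sum_congr rfl hshift, sum_add_distrib, sum_congr rfl hei, sum_sub_distrib, ← sum_mul]
    simp only [sum_const, card_range, nsmul_eq_mul]
    field_simp
    ring
  have hintSum : IntervalIntegrable (fun t => (∑ i ∈ range d, Ψ (K + e i) (t + ξ i)) / d) volume τ T := by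
    have h1 : IntervalIntegrable (fun t => ∑ i ∈ range d, Ψ (K + e i) (t + ξ i)) volume τ T := by
      have e : (fun t => ∑ i ∈ range d, Ψ (K + e i) (t + ξ i)) =
          ∑ i ∈ range d, fun t => Ψ (K + e i) (t + ξ i) := by
        funext t
        rw [Finset.sum_apply]
      rw [e]
      exact IntervalIntegrable.sum (range d) hintS
    exact h1.div_const _
  have herr : |(∫ t in τ..T, Ψ (K + 2) t) - ∫ t in τ..T, (∑ i ∈ range d, Ψ (K + e i) (t + ξ i)) / d| ≤
      C / τ := by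
    rw [← intervalIntegral.integral_sub (hint _ _ _) hintSum, ← Real.norm_eq_abs]
    have hi : IntervalIntegrable (fun t : ℝ => C / t ^ 2) volume τ T := by
      apply ContinuousOn.intervalIntegrable
      intro t ht
      rw [Set.uIcc_of_le hTc] at ht
      have ht0 : t ≠ 0 := by linarith [ht.1]
      exact (continuousAt_const.div (continuousAt_id.pow 2) (pow_ne_zero 2 ht0)).continuousWithinAt
    refine (intervalIntegral.norm_integral_le_of_norm_le hTc (Filter.Eventually.of_forall ?_) hi).trans ?_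
    · intro t ht
      rw [Real.norm_eq_abs]
      exact hh K t (by linarith [ht.1])
    · rw [R623.LM.integral_sq_inv hτpos hTc]
      have : 0 ≤ C / T := by
        apply div_nonneg hC; linarith
      linarith
  -- the main term
  have hmain : ∀ i ∈ range d, |(∫ t in (τ + ξ i)..τ, Ψ (K + e i) t) - -ξ i * δ| ≤
      ε / (4 * (c + 1)) * |ξ i| := by
    intro i hi
    have hx := abs_le.1 (hci i hi)
    have h1 : (∫ t in (τ + ξ i)..τ, (Ψ (K + e i) t - δ)) =
        (∫ t in (τ + ξ i)..τ, Ψ (K + e i) t) - -ξ i * δ := by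
      rw [intervalIntegral.integral_sub (hint _ _ _) intervalIntegrable_const, intervalIntegral.integral_const]
      simp
    rw [← h1, ← Real.norm_eq_abs]
    have h2 : |τ - (τ + ξ i)| = |ξ i| := by
      rw [show τ - (τ + ξ i) = -ξ i by ring, abs_neg]
    rw [← h2]
    apply intervalIntegral.norm_integral_le_of_norm_le_const
    intro t ht
    have ht1 : τ - c ≤ t ∧ t ≤ τ + c := by
      rcases le_total (τ + ξ i) τ with h4 | h4
      · rw [Set.uIoc_of_le h4] at ht
        constructor <;> linarith [ht.1, ht.2, hx.1, hx.2]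
      · rw [Set.uIoc_comm, Set.uIoc_of_le h4] at ht
        constructor <;> linarith [ht.1, ht.2, hx.1, hx.2]
    rw [hK₁ (K + e i) (by omega) t ht1.2, Real.norm_eq_abs, ← Real.dist_eq]
    exact (hT₂ t (by linarith [ht1.1])).le
  have hsum : |(∑ i ∈ range d, ∫ t in (τ + ξ i)..τ, Ψ (K + e i) t) / d -
      -(∑ i ∈ range d, ξ i) / d * δ| ≤ ε / 4 := by
    have e1 : (∑ i ∈ range d, ∫ t in (τ + ξ i)..τ, Ψ (K + e i) t) / d - -(∑ i ∈ range d, ξ i) / d * δ =
        (∑ i ∈ range d, ((∫ t in (τ + ξ i)..τ, Ψ (K + e i) t) - -ξ i * δ)) / d := by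
      rw [sum_sub_distrib, ← sum_mul, sum_neg_distrib]
      ring
    rw [e1, abs_div, abs_of_pos hdR]
    refine (div_le_self (abs_nonneg _) hd1).trans ?_
    refine (abs_sum_le_sum_abs _ _).trans ((sum_le_sum hmain).trans ?_)
    rw [← mul_sum, ← hc]
    rw [div_mul_eq_mul_div, div_le_div_iff₀ (by positivity) (by norm_num)]
    nlinarith
  have hdec : μ (K + 1) + (∑ i ∈ range d, (1 - (e i : ℝ))) / d * μ K - -(∑ i ∈ range d, ξ i) / d * δ =
      ((∫ t in τ..T, Ψ (K + 2) t) - ∫ t in τ..T, (∑ i ∈ range d, Ψ (K + e i) (t + ξ i)) / d) +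
      ((∑ i ∈ range d, ∫ t in (τ + ξ i)..τ, Ψ (K + e i) t) / d - -(∑ i ∈ range d, ξ i) / d * δ) := by
    rw [← hmK', hsumint]; ring
  rw [Real.dist_eq, hdec]
  refine lt_of_le_of_lt (abs_add_le _ _) ?_
  linarith

end Pool.Agent.R623.LN
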