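import Pool.Agent.R623.LM.G
import Pool.Agent.R623.LN.C
import Pool.Agent.R623.LN.D

/-! Level masses with costs, part 5: the levels over a finite set, if each step has cost one or two. -/

set_option autoImplicit false

namespace Pool.Agent.R623.LN
open Pool.Agent.H319R3.GC Pool.Agent.H319R3.DN Finset Filter Topology MeasureTheory
open Pool.Agent.R623.LM (Bas stay bounded fin_of_bdd abs_eq gg gg_int int_gg Fw_fin Fw_int)

variable {d : ℕ} {m r : ℕ → ℤ}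

/-- the cost of the first `k` steps: a step with the letter `i` costs `2 - e i` -/
def cst (d : ℕ) (m r : ℕ → ℤ) (e : ℕ → ℕ) : ℕ → ℤ → ℕ
  | 0, _ => 0
  | k + 1, x => (2 - e (x % d).toNat) + cst d m r e k (Tm d m r x)

/-- the integers which are in `F` after steps of total cost at most `K` -/
def UC (d : ℕ) (m r : ℕ → ℤ) (e : ℕ → ℕ) (F : Set ℤ) (K : ℕ) : Set ℤ :=
  {x | ∃ k : ℕ, (Tm d m r)^[k] x ∈ F ∧ cst d m r e k x ≤ K}

theorem cst_add (e : ℕ → ℕ) (k l : ℕ) (x : ℤ) :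
    cst d m r e (k + l) x = cst d m r e k x + cst d m r e l ((Tm d m r)^[k] x) := by
  induction k generalizing x with
  | zero => simp [cst]
  | succ k ih =>
    rw [show k + 1 + l = (k + l) + 1 by ring, cst, ih, cst, Function.iterate_succ_apply]
    ring

theorem res_lt (hd : 2 ≤ d) (x : ℤ) : (x % (d : ℤ)).toNat < d := by
  have h2 : 0 ≤ x % (d : ℤ) := Int.emod_nonneg _ (by omega)
  have h3 : x % (d : ℤ) < d := Int.emod_lt_of_pos _ (by omega)
  omega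

theorem le_cst (hd : 2 ≤ d) {e : ℕ → ℕ} (he : ∀ i < d, e i ≤ 1) (k : ℕ) (x : ℤ) :
    k ≤ cst d m r e k x := by
  induction k generalizing x with
  | zero => exact Nat.zero_le _
  | succ k ih =>
    have h1 := ih (Tm d m r x)
    have h2 := he _ (res_lt hd x)
    rw [cst]
    omega

theorem UC_mono {e : ℕ → ℕ} {F : Set ℤ} {K L : ℕ} (h : K ≤ L) {x : ℤ} (hx : x ∈ UC d m r e F K) :
    x ∈ UC d m r e F L := by
  obtain ⟨k, h1, h2⟩ := hx
  exact ⟨k, h1, h2.trans h⟩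

/-- one step -/
theorem UC_step {e : ℕ → ℕ} {F F' : Set ℤ} (hFF : F ⊆ F') (hT : ∀ x ∈ F', Tm d m r x ∈ F')
    (K : ℕ) {i : ℕ} (hi : i < d) (he : e i ≤ 1) {x : ℤ} (hx : (d : ℤ) ∣ x - i) (hTx : Tm d m r x ∉ F') :
    x ∈ UC d m r e F (K + 2) ↔ Tm d m r x ∈ UC d m r e F (K + e i) := by
  have h1 : (x % (d : ℤ)).toNat = i := by
    have h2 : x % (d : ℤ) = i := by
      have h3 : x % (d : ℤ) = (i : ℤ) % (d : ℤ) :=
        Int.emod_eq_emod_iff_emod_sub_eq_zero.2 (Int.emod_eq_zero_of_dvd hx)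
      rw [h3, Int.emod_eq_of_lt (by positivity) (by exact_mod_cast hi)]
    rw [h2]; simp
  constructor
  · rintro ⟨k, hk1, hk2⟩
    rcases Nat.eq_zero_or_pos k with h0 | h0
    · subst h0
      exact absurd (hT x (hFF hk1)) hTx
    · obtain ⟨j, rfl⟩ : ∃ j, k = j + 1 := ⟨k - 1, by omega⟩
      rw [Function.iterate_succ_apply] at hk1
      rw [cst, h1] at hk2
      exact ⟨j, hk1, by omega⟩
  · rintro ⟨j, hj1, hj2⟩
    refine ⟨j + 1, by rwa [Function.iterate_succ_apply], ?_⟩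
    rw [cst, h1]
    omega

theorem Syn_UC {e : ℕ → ℕ} {F F' : Set ℤ} (hFF : F ⊆ F') (hT : ∀ x ∈ F', Tm d m r x ∈ F') {R : ℝ}
    (hR : ∀ x ∈ F', |(x : ℝ)| ≤ R)
    (hdet : ∀ (k : ℕ) (x y : ℤ), Mw m (wd d m r k x) = Mw m (wd d m r k y) →
      cst d m r e k x = cst d m r e k y) (K : ℕ) : Syn d m r R (UC d m r e F K) := by
  intro k M
  by_cases hex : ∃ x₀ : ℤ, Mw m (wd d m r k x₀) = M ∧ cst d m r e k x₀ ≤ K
  · obtain ⟨x₀, h1, h2⟩ := hex
    refine ⟨UC d m r e F (K - cst d m r e k x₀), fun x hxM hx => ?_⟩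
    have hc := hdet k x x₀ (hxM.trans h1.symm)
    have hnot : (Tm d m r)^[k] x ∉ F' := fun h => absurd (hR _ h) (not_le.2 hx)
    constructor
    · rintro ⟨j, hj1, hj2⟩
      rcases le_or_gt j k with hjk | hjk
      · exfalso
        obtain ⟨l, rfl⟩ := Nat.exists_eq_add_of_le hjk
        apply hnot
        rw [Nat.add_comm, Function.iterate_add_apply]
        exact stay hT l _ (hFF hj1)
      · obtain ⟨l, rfl⟩ := Nat.exists_eq_add_of_le hjk.le
        rw [cst_add] at hj2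
        rw [Nat.add_comm, Function.iterate_add_apply] at hj1
        exact ⟨l, hj1, by omega⟩
    · rintro ⟨l, hl1, hl2⟩
      refine ⟨k + l, ?_, ?_⟩
      · rw [Nat.add_comm, Function.iterate_add_apply]; exact hl1
      · rw [cst_add]; omega
  · refine ⟨∅, fun x hxM hx => ?_⟩
    have hnot : (Tm d m r)^[k] x ∉ F' := fun h => absurd (hR _ h) (not_le.2 hx)
    constructor
    · rintro ⟨j, hj1, hj2⟩
      exfalso
      rcases le_or_gt j k with hjk | hjk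
      · obtain ⟨l, rfl⟩ := Nat.exists_eq_add_of_le hjk
        apply hnot
        rw [Nat.add_comm, Function.iterate_add_apply]
        exact stay hT l _ (hFF hj1)
      · obtain ⟨l, rfl⟩ := Nat.exists_eq_add_of_le hjk.le
        rw [cst_add] at hj2
        exact hex ⟨x, hxM, by omega⟩
    · intro h1
      exact absurd h1 (Set.notMem_empty _)

theorem bounded_UC (h : Adm d m r) {e : ℕ → ℕ} (he : ∀ i < d, e i ≤ 1) {F F' : Set ℤ} (hFF : F ⊆ F')
    (hT : ∀ x ∈ F', Tm d m r x ∈ F') {R : ℝ} (hR : ∀ x ∈ F', |(x : ℝ)| ≤ R) (K : ℕ) :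
    ∃ B : ℝ, ∀ x ∈ UC d m r e F K, |(x : ℝ)| ≤ B := by
  obtain ⟨B, hB⟩ := bounded h hR K
  refine ⟨B, fun x hx => hB x ?_⟩
  obtain ⟨k, h1, h2⟩ := hx
  have h3 := le_cst (m := m) (r := r) h.two_le he k x
  obtain ⟨l, hl⟩ := Nat.exists_eq_add_of_le (h3.trans h2)
  show (Tm d m r)^[K] x ∈ F'
  rw [hl, Nat.add_comm, Function.iterate_add_apply]
  exact stay hT l _ (hFF h1)

theorem eventually_UC {e : ℕ → ℕ} {F : Set ℤ} (Y : ℝ) :
    ∃ K₀ : ℕ, ∀ K, K₀ ≤ K → ∀ x : ℤ, |(x : ℝ)| ≤ Y → (x ∈ Bas d m r F ↔ x ∈ UC d m r e F K) := by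
  classical
  have hk : ∀ x : ℤ, ∃ k : ℕ, x ∈ Bas d m r F → x ∈ UC d m r e F k := by
    intro x
    by_cases hx : x ∈ Bas d m r F
    · obtain ⟨k, hk⟩ := hx
      exact ⟨cst d m r e k x, fun _ => ⟨k, hk, le_rfl⟩⟩
    · exact ⟨0, fun h => absurd h hx⟩
  choose κ hκ using hk
  have hfin : {x : ℤ | |(x : ℝ)| ≤ Y}.Finite := fin_of_bdd (B := Y) fun x hx => hx
  refine ⟨hfin.toFinset.sup κ, fun K hK x hx => ⟨fun hb => ?_, fun hu => ?_⟩⟩
  · refine UC_mono ?_ (hκ x hb)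
    exact (Finset.le_sup (f := κ) (hfin.mem_toFinset.2 hx)).trans hK
  · obtain ⟨k, h1, -⟩ := hu
    exact ⟨k, h1⟩

/-- **The law of the levels with costs.** -/
theorem level_law2 (h : Adm d m r) {e : ℕ → ℕ} (he : ∀ i < d, e i ≤ 1) {i₀ : ℕ} (hi₀ : i₀ < d)
    (hei₀ : e i₀ = 1)
    (hdet : ∀ (k : ℕ) (x y : ℤ), Mw m (wd d m r k x) = Mw m (wd d m r k y) →
      cst d m r e k x = cst d m r e k y)
    {F F' : Set ℤ} (hFF : F ⊆ F') (hF : F'.Finite) (hT : ∀ x ∈ F', Tm d m r x ∈ F')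
    {Sg : Finset ℤ} (hSg : ∀ σ ∈ Sg, σ = 1 ∨ σ = -1)
    (hperm : ∀ i < d, ∀ φ : ℤ → ℝ, ∑ σ ∈ Sg, φ (σ * (m i).sign) = ∑ σ ∈ Sg, φ σ) {l : ℤ → ℝ}
    (hl : ∀ σ ∈ Sg, Tendsto (Fw (Bas d m r F) σ) atTop (𝓝 (l σ))) :
    Tendsto (fun k : ℕ => ∑ σ ∈ Sg, ∑' x : {x : ℤ | x ∈ UC d m r e F (k + 1) ∧ x ∉ UC d m r e F k ∧
      0 < σ * x}, 1 / |((x : ℤ) : ℝ)|) atTop
      (𝓝 (-(∑ i ∈ range d, Real.log (|(m i : ℝ)| / d)) / d * (∑ σ ∈ Sg, l σ) /
        (1 + (∑ i ∈ range d, (1 - (e i : ℝ))) / d))) := by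
  classical
  have hd2 := h.two_le
  have hdR : (0 : ℝ) < d := by
    have : 0 < d := by omega
    exact_mod_cast this
  obtain ⟨R, hR⟩ : ∃ R : ℝ, 0 ≤ R ∧ ∀ x ∈ F', |(x : ℝ)| ≤ R := by
    refine ⟨∑ x ∈ hF.toFinset, |(x : ℝ)|, sum_nonneg fun x _ => abs_nonneg _, fun x hx => ?_⟩
    exact single_le_sum (f := fun x : ℤ => |(x : ℝ)|) (fun y _ => abs_nonneg _) (hF.mem_toFinset.2 hx)
  obtain ⟨hR0, hR⟩ := hR
  obtain ⟨C, t₀, hC, ht₀, hH⟩ := harm h hR0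
  have hfin : ∀ K, (UC d m r e F K).Finite := fun K =>
    fin_of_bdd (bounded_UC h he hFF hT hR K).choose_spec
  set V : ℕ → ℤ → Finset ℤ := fun K σ => (hfin K).toFinset.filter fun x => 0 < σ * x with hV
  have hVm : ∀ K σ x, x ∈ V K σ ↔ x ∈ UC d m r e F K ∧ 0 < σ * x := by
    intro K σ x
    rw [hV]; simp
  have hVsub : ∀ K σ, V K σ ⊆ V (K + 1) σ := by
    intro K σ x hx
    rw [hVm] at hx ⊢
    exact ⟨UC_mono (Nat.le_succ K) hx.1, hx.2⟩
  have hLev : ∀ K σ, {x : ℤ | x ∈ UC d m r e F (K + 1) ∧ x ∉ UC d m r e F K ∧ 0 < σ * x} =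
      (V (K + 1) σ \ V K σ : Finset ℤ) := by
    intro K σ
    ext x
    rw [Finset.mem_coe, Finset.mem_sdiff, hVm, hVm]
    constructor
    · rintro ⟨h1, h2, h3⟩
      exact ⟨⟨h1, h3⟩, fun h4 => h2 h4.1⟩
    · rintro ⟨⟨h1, h3⟩, h4⟩
      exact ⟨h1, fun h5 => h4 ⟨h5, h3⟩, h3⟩
  have hmass : ∀ K : ℕ, (∑ σ ∈ Sg, ∑' x : {x : ℤ | x ∈ UC d m r e F (K + 1) ∧ x ∉ UC d m r e F K ∧
      0 < σ * x}, 1 / |((x : ℤ) : ℝ)|) = ∑ σ ∈ Sg, ∑ x ∈ V (K + 1) σ \ V K σ, 1 / |(x : ℝ)| := by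
    intro K
    refine sum_congr rfl fun σ _ => ?_
    rw [hLev K σ]
    exact Finset.tsum_subtype' (V (K + 1) σ \ V K σ) (fun x : ℤ => 1 / |(x : ℝ)|)
  simp only [hmass]
  set Ψ : ℕ → ℝ → ℝ := fun K t => ∑ σ ∈ Sg, Fw (UC d m r e F K) σ t with hΨ
  set f : ℝ → ℝ := fun t => ∑ σ ∈ Sg, Fw (Bas d m r F) σ t with hf
  have hint : ∀ K a b, IntervalIntegrable (Ψ K) volume a b := by
    intro K a b
    have e : Ψ K = ∑ σ ∈ Sg, Fw (UC d m r e F K) σ := by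
      funext t
      rw [Finset.sum_apply]
    rw [e]
    exact IntervalIntegrable.sum Sg fun σ hσ => Fw_int _ (hSg σ hσ) a b
  have hq0 : 0 ≤ (∑ i ∈ range d, (1 - (e i : ℝ))) / d := by
    apply div_nonneg _ hdR.le
    apply sum_nonneg
    intro i hi
    have h1 : (e i : ℝ) ≤ 1 := by exact_mod_cast he i (mem_range.1 hi)
    linarith
  have hq1 : (∑ i ∈ range d, (1 - (e i : ℝ))) / d < 1 := by
    rw [div_lt_one hdR]
    have h1 : ∑ i ∈ range d, (1 - (e i : ℝ)) < ∑ i ∈ range d, (1 : ℝ) := by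
      apply Finset.sum_lt_sum
      · intro i _
        have : (0 : ℝ) ≤ e i := Nat.cast_nonneg _
        linarith
      · exact ⟨i₀, mem_range.2 hi₀, by rw [hei₀]; norm_num⟩
    simpa using h1
  refine rec_lim hq0 hq1 ?_
  refine flux2 (d := d) (by omega) (ξ := fun i => Real.log (|(m i : ℝ)| / d)) (e := e) he (Ψ := Ψ) (f := f)
    (μ := fun K => ∑ σ ∈ Sg, ∑ x ∈ V (K + 1) σ \ V K σ, 1 / |(x : ℝ)|) (δ := ∑ σ ∈ Sg, l σ)
    (C := Sg.card * C) (t₀ := t₀) hint (by positivity) ?_ ?_ ?_ ?_ ?_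
  · -- the harmonic relation
    intro K t ht
    have e1 : (∑ i ∈ range d, Ψ (K + e i) (t + Real.log (|(m i : ℝ)| / d))) / d =
        ∑ σ ∈ Sg, (∑ i ∈ range d, Fw (UC d m r e F (K + e i)) (σ * (m i).sign)
          (t + Real.log (|(m i : ℝ)| / d))) / d := by
      have e0 : ∑ i ∈ range d, Ψ (K + e i) (t + Real.log (|(m i : ℝ)| / d)) = ∑ i ∈ range d, ∑ σ ∈ Sg,
          Fw (UC d m r e F (K + e i)) (σ * (m i).sign) (t + Real.log (|(m i : ℝ)| / d)) :=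
        sum_congr rfl fun i hi => (hperm i (mem_range.1 hi)
          fun σ => Fw (UC d m r e F (K + e i)) σ (t + Real.log (|(m i : ℝ)| / d))).symm
      rw [e0, Finset.sum_comm, Finset.sum_div]
    have e2 : Ψ (K + 2) t = ∑ σ ∈ Sg, Fw (UC d m r e F (K + 2)) σ t := rfl
    rw [e1, e2, ← Finset.sum_sub_distrib]
    refine (abs_sum_le_sum_abs _ _).trans ?_
    have h1 : ∀ σ ∈ Sg, |Fw (UC d m r e F (K + 2)) σ t -
        (∑ i ∈ range d, Fw (UC d m r e F (K + e i)) (σ * (m i).sign)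
          (t + Real.log (|(m i : ℝ)| / d))) / d| ≤ C / t ^ 2 := by
      intro σ hσ
      refine hH (UC d m r e F (K + 2)) (fun i => UC d m r e F (K + e i)) ?_ ?_ σ (hSg σ hσ) t ht
      · intro i hi x hx hTx
        exact UC_step hFF hT K hi (he i hi) hx fun h5 => absurd (hR _ h5) (not_le.2 hTx)
      · intro i _
        exact Syn_UC hFF hT hR hdet (K + e i)
    refine (sum_le_sum h1).trans ?_
    rw [sum_const, nsmul_eq_mul, mul_div_assoc]
  · -- the basin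
    intro Y
    obtain ⟨K₀, hK₀⟩ := eventually_UC (d := d) (m := m) (r := r) (e := e) (F := F) (2 * Real.exp Y)
    refine ⟨K₀, fun K hK t ht => ?_⟩
    refine sum_congr rfl fun σ hσ => ?_
    unfold Fw nw
    congr 3
    ext x
    have key : Real.exp t ≤ ((σ * x : ℤ) : ℝ) → ((σ * x : ℤ) : ℝ) < 2 * Real.exp t →
        (x ∈ Bas d m r F ↔ x ∈ UC d m r e F K) := by
      intro h1 h2
      apply hK₀ K hK
      rw [abs_eq (hSg σ hσ) x, abs_of_nonneg ((Real.exp_pos t).le.trans h1)]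
      have := Real.exp_le_exp.2 ht
      linarith
    constructor
    · rintro ⟨h1, h2, h3, h4⟩
      exact ⟨(key h2 h3).2 h1, h2, h3, h4⟩
    · rintro ⟨h1, h2, h3, h4⟩
      exact ⟨(key h2 h3).1 h1, h2, h3, h4⟩
  · -- vanishing
    intro K
    obtain ⟨B, hB⟩ := bounded_UC h he hFF hT hR K
    refine ⟨B, fun t ht => ?_⟩
    apply sum_eq_zero
    intro σ hσ
    unfold Fw nw
    have : {x : ℤ | x ∈ UC d m r e F K ∧ Real.exp t ≤ ((σ * x : ℤ) : ℝ) ∧
        ((σ * x : ℤ) : ℝ) < 2 * Real.exp t ∧ ((1 : ℕ) : ℤ) ∣ x - 0} = ∅ := by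
      ext x
      simp only [Set.mem_ofPred_eq, Set.mem_empty_iff_false, iff_false]
      rintro ⟨h1, h2, -, -⟩
      have h3 := hB x h1
      rw [abs_eq (hSg σ hσ) x] at h3
      have h4 := le_abs_self (((σ * x : ℤ) : ℝ))
      have h5 := Real.add_one_le_exp t
      linarith
    rw [this]; simp
  · -- the density of the basin
    exact tendsto_finsetSum Sg hl
  · -- the masses
    intro τ
    obtain ⟨K₀, hK₀⟩ := eventually_UC (d := d) (m := m) (r := r) (e := e) (F := F) (2 * Real.exp τ)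
    refine ⟨K₀, fun K hK => ?_⟩
    obtain ⟨B, hB⟩ := bounded_UC h he hFF hT hR (K + 1)
    refine ⟨B, fun T hTB => ?_⟩
    rw [← intervalIntegral.integral_sub (hint _ _ _) (hint _ _ _)]
    have e1 : ∀ t, Ψ (K + 1) t - Ψ K t = ∑ σ ∈ Sg, ∑ x ∈ V (K + 1) σ \ V K σ, gg |(x : ℝ)| t := by
      intro t
      rw [hΨ]
      simp only
      rw [← Finset.sum_sub_distrib]
      refine sum_congr rfl fun σ hσ => ?_
      rw [Fw_fin (hSg σ hσ) (hVm (K + 1) σ) t, Fw_fin (hSg σ hσ) (hVm K σ) t,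
        ← Finset.sum_sdiff (hVsub K σ)]
      ring
    have e2 : (fun t => Ψ (K + 1) t - Ψ K t) = fun t => ∑ σ ∈ Sg, ∑ x ∈ V (K + 1) σ \ V K σ, gg |(x : ℝ)| t :=
      funext e1
    rw [e2, intervalIntegral.integral_finsetSum]
    · refine sum_congr rfl fun σ hσ => ?_
      rw [intervalIntegral.integral_finsetSum fun x _ => gg_int _ _ _]
      refine sum_congr rfl fun x hx => ?_
      rw [Finset.mem_sdiff, hVm, hVm] at hx
      apply int_gg
      · by_contra hcon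
        apply hx.2
        obtain ⟨k, hk, -⟩ := hx.1.1
        exact ⟨(hK₀ K hK x (not_le.1 hcon).le).1 ⟨k, hk⟩, hx.1.2⟩
      · have h1 := hB x hx.1.1
        have h2 := Real.add_one_le_exp T
        linarith
    · intro σ hσ
      have e : (fun t => ∑ x ∈ V (K + 1) σ \ V K σ, gg |(x : ℝ)| t) =
          ∑ x ∈ V (K + 1) σ \ V K σ, gg |(x : ℝ)| := by
        funext t
        rw [Finset.sum_apply]
      rw [e]
      exact IntervalIntegrable.sum _ fun x _ => gg_int _ _ _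

end Pool.Agent.R623.LN
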