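import Pool.Agent.R623.LN.F
import Pool.Agent.H319R3.DN.T13

/-! Wiggin's maps `F_D`: translation to the accelerated map. -/

set_option autoImplicit false

namespace Pool.Agent.R623.LN.W
open Pool.Agent.H319R3.GC Pool.Agent.H319R3.DN Finset Filter Topology
open Pool.Agent.R623.LM (Bas)

/-- Wiggin's map `F_D`. -/
def F (D x : ℕ) : ℕ :=
  if x % D = 0 then x / D
  else if x % D = D - 1 then (D + 1) * x + 1
  else (D + 1) * x - x % D

/-- multipliers -/
def mD (D : ℕ) : ℕ → ℤ := fun i => if i = 0 then 1 else (D : ℤ) + 1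

/-- offsets -/
def rD (D : ℕ) : ℕ → ℤ := fun i => if i = 0 then 0 else if i = D - 1 then -1 else (i : ℤ)

/-- the letter `0` costs one step, the other letters cost two steps -/
def eD : ℕ → ℕ := fun i => if i = 0 then 1 else 0

theorem prod_eq (D : ℕ) : PP (D + 1) (mD (D + 1)) = (D + 2) ^ D := by
  unfold PP
  rw [Finset.prod_range_succ']
  have h1 : ∀ i ∈ Finset.range D, (mD (D + 1) (i + 1)).natAbs = D + 2 := by
    intro i _
    simp only [mD]
    rw [if_neg (by omega)]
    omega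
  rw [Finset.prod_congr rfl h1]
  simp [mD]

theorem pow_lt (D : ℕ) (hD : 1 ≤ D) : (D + 2) ^ D < (D + 1) ^ (D + 1) := by
  rcases Nat.lt_or_ge D 2 with h | h
  · have : D = 1 := by omega
    subst this; norm_num
  · have hDR : (2 : ℝ) ≤ D := by exact_mod_cast h
    have h1 : (1 + 1 / ((D : ℝ) + 1)) ^ D ≤ Real.exp 1 := by
      have h2 : 1 + 1 / ((D : ℝ) + 1) ≤ Real.exp (1 / ((D : ℝ) + 1)) := by
        have := Real.add_one_le_exp (1 / ((D : ℝ) + 1)); linarith
      calc (1 + 1 / ((D : ℝ) + 1)) ^ D ≤ Real.exp (1 / ((D : ℝ) + 1)) ^ D :=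
            pow_le_pow_left₀ (by positivity) h2 D
        _ = Real.exp (D * (1 / ((D : ℝ) + 1))) := by rw [← Real.exp_nat_mul]
        _ ≤ Real.exp 1 := by
          apply Real.exp_le_exp.2
          rw [mul_one_div, div_le_one (by positivity)]
          linarith
    have h3 : Real.exp 1 < 3 := by
      have := Real.exp_one_lt_d9; linarith
    have h4 : ((D : ℝ) + 2) ^ D < ((D : ℝ) + 1) ^ (D + 1) := by
      have e : (D : ℝ) + 2 = ((D : ℝ) + 1) * (1 + 1 / ((D : ℝ) + 1)) := by
        field_simp; ring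
      rw [e, mul_pow, pow_succ]
      apply mul_lt_mul_of_pos_left _ (by positivity)
      linarith
    exact_mod_cast h4

theorem adm (D : ℕ) (hD : 2 ≤ D) : Adm D (mD D) (rD D) := by
  obtain ⟨e, rfl⟩ : ∃ e, D = e + 1 := ⟨D - 1, by omega⟩
  refine ⟨hD, ?_, ?_, ?_, ?_⟩
  · intro i _
    simp only [mD]
    split_ifs
    · exact isCoprime_one_left
    · exact ⟨1, -1, by ring⟩
  · intro i hi
    simp only [mD, rD]
    split_ifs with h0 h1
    · subst h0; simp
    · have : (i : ℤ) = ((e + 1 : ℕ) : ℤ) - 1 := by omega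
      rw [this]
      exact ⟨((e + 1 : ℕ) : ℤ), by ring⟩
    · exact ⟨i, by ring⟩
  · rw [prod_eq]; exact pow_lt e (by omega)
  · rw [prod_eq]
    calc 2 ≤ (e + 2) ^ 1 := by rw [pow_one]; omega
      _ ≤ (e + 2) ^ e := Nat.pow_le_pow_right (by omega) (by omega)

/-- one step of the accelerated map is one or two steps of `F_D` -/
theorem F_Tm (D : ℕ) (hD : 2 ≤ D) (n : ℕ) (hn : 1 ≤ n) :
    1 ≤ (F D)^[2 - eD (n % D)] n ∧
      Tm D (mD D) (rD D) (n : ℤ) = (((F D)^[2 - eD (n % D)] n : ℕ) : ℤ) := by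
  have hD0 : (0 : ℤ) < D := by exact_mod_cast (by omega : 0 < D)
  have hmod : ((n : ℤ) % (D : ℤ)).toNat = n % D := by
    rw [← Int.natCast_mod, Int.toNat_natCast]
  obtain ⟨q, j, hj, rfl⟩ : ∃ q j, j < D ∧ n = D * q + j :=
    ⟨n / D, n % D, Nat.mod_lt _ (by omega), (Nat.div_add_mod n D).symm⟩
  have hmj : (D * q + j) % D = j := by rw [Nat.mul_add_mod, Nat.mod_eq_of_lt hj]
  rw [hmj] at hmod
  unfold Tm
  rw [hmod, hmj]
  have hFm : ∀ t : ℕ, F D (D * t) = t := by
    intro t
    unfold F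
    rw [if_pos (Nat.mul_mod_right D t), Nat.mul_div_cancel_left _ (by omega)]
  rcases Nat.eq_zero_or_pos j with h0 | h0
  · subst h0
    have e1 : 2 - eD 0 = 1 := rfl
    rw [e1]
    refine ⟨?_, ?_⟩
    · rw [Function.iterate_one, Nat.add_zero, hFm]
      rcases Nat.eq_zero_or_pos q with h | h
      · subst h; simp at hn
      · exact h
    · rw [Function.iterate_one, Nat.add_zero, hFm]
      simp only [mD, rD, if_true]
      push_cast
      rw [one_mul, sub_zero, Int.mul_ediv_cancel_left _ hD0.ne']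
  · have e1 : 2 - eD j = 2 := by
      unfold eD
      rw [if_neg (by omega)]
    rw [e1]
    by_cases h1 : j = D - 1
    · have hF : F D (D * q + j) = D * (D * (q + 1) + q) := by
        unfold F
        rw [hmj, if_neg (by omega), if_pos h1, h1]
        obtain ⟨d, rfl⟩ : ∃ d, D = d + 1 := ⟨D - 1, by omega⟩
        simp only [Nat.add_sub_cancel]
        ring
      refine ⟨?_, ?_⟩
      · rw [Function.iterate_succ_apply, Function.iterate_one, hF, hFm]
        have : 1 ≤ D * (q + 1) := Nat.mul_pos (by omega) (by omega)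
        omega
      · rw [Function.iterate_succ_apply, Function.iterate_one, hF, hFm]
        simp only [mD, rD]
        rw [if_neg (by omega), if_neg (by omega), if_pos h1]
        have hjz : (j : ℤ) = D - 1 := by omega
        push_cast
        rw [hjz]
        have e : ((D : ℤ) + 1) * (D * q + (D - 1)) - -1 = D * (D * (q + 1) + q) := by ring
        rw [e, Int.mul_ediv_cancel_left _ hD0.ne']
    · have hF : F D (D * q + j) = D * (D * q + j + q) := by
        unfold F
        rw [hmj, if_neg (by omega), if_neg h1]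
        have : (D + 1) * (D * q + j) = D * (D * q + j + q) + j := by ring
        omega
      refine ⟨?_, ?_⟩
      · rw [Function.iterate_succ_apply, Function.iterate_one, hF, hFm]
        omega
      · rw [Function.iterate_succ_apply, Function.iterate_one, hF, hFm]
        simp only [mD, rD]
        rw [if_neg (by omega), if_neg (by omega), if_neg h1]
        push_cast
        have e : ((D : ℤ) + 1) * (D * q + j) - j = D * (D * q + j + q) := by ring
        rw [e, Int.mul_ediv_cancel_left _ hD0.ne']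

/-- a term in the middle of a double step is at least `D` -/
theorem F_mid (D : ℕ) (hD : 2 ≤ D) (n : ℕ) (hn : 1 ≤ n) (h : n % D ≠ 0) : D ≤ F D n := by
  unfold F
  rw [if_neg h]
  have h1 : n % D ≤ n := Nat.mod_le n D
  have h2 : D * 1 ≤ D * n := Nat.mul_le_mul_left D hn
  have h3 : (D + 1) * n = D * n + n := by ring
  split_ifs
  · omega
  · omega

theorem toNat_mod (D n : ℕ) : ((n : ℤ) % (D : ℤ)).toNat = n % D := by
  rw [← Int.natCast_mod, Int.toNat_natCast]

/-- the set `{1, …, D - 1}` -/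
def Fs (D : ℕ) : Set ℤ := {x : ℤ | 1 ≤ x ∧ x < D}

/-- the set `{1, …, D}` -/
def Fb (D : ℕ) : Set ℤ := {x : ℤ | 1 ≤ x ∧ x ≤ D}

theorem Fs_sub (D : ℕ) : Fs D ⊆ Fb D := fun _ hx => ⟨hx.1, hx.2.le⟩

theorem Fb_finite (D : ℕ) : (Fb D).Finite :=
  (Set.finite_Icc (1 : ℤ) D).subset fun _ hx => Set.mem_Icc.2 hx

theorem Tm_D (D : ℕ) (hD : 2 ≤ D) : Tm D (mD D) (rD D) (D : ℤ) = 1 := by
  have hD0 : (D : ℤ) ≠ 0 := by omega
  unfold Tm
  rw [Int.emod_self]
  simp only [Int.toNat_zero, mD, rD, if_true]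
  rw [one_mul, sub_zero, Int.ediv_self hD0]

theorem Tm_small (D : ℕ) (hD : 2 ≤ D) {x : ℤ} (hx : x ∈ Fs D) :
    Tm D (mD D) (rD D) x = x ∨ Tm D (mD D) (rD D) x = D := by
  obtain ⟨h1, h2⟩ := hx
  have hD0 : (D : ℤ) ≠ 0 := by omega
  unfold Tm
  rw [Int.emod_eq_of_lt (by omega) h2]
  simp only [mD, rD]
  rw [if_neg (by omega), if_neg (by omega)]
  split_ifs with h3
  · right
    have h4 : x = (D : ℤ) - 1 := by omega
    rw [h4]
    have e : ((D : ℤ) + 1) * (D - 1) - -1 = D * D := by ring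
    rw [e, Int.mul_ediv_cancel_left _ hD0]
  · left
    have h4 : ((x.toNat : ℕ) : ℤ) = x := Int.toNat_of_nonneg (by omega)
    rw [h4]
    have e : ((D : ℤ) + 1) * x - x = D * x := by ring
    rw [e, Int.mul_ediv_cancel_left _ hD0]

theorem Fb_forward (D : ℕ) (hD : 2 ≤ D) : ∀ x ∈ Fb D, Tm D (mD D) (rD D) x ∈ Fb D := by
  intro x hx
  rcases lt_or_eq_of_le hx.2 with h | h
  · rcases Tm_small D hD ⟨hx.1, h⟩ with h1 | h1
    · rw [h1]; exact hx
    · rw [h1]; exact ⟨by omega, le_rfl⟩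
  · rw [h, Tm_D D hD]; exact ⟨le_rfl, by omega⟩

theorem Bas_inv (D : ℕ) (hD : 2 ≤ D) : Inv D (mD D) (rD D) (Bas D (mD D) (rD D) (Fs D)) := by
  intro x
  constructor
  · rintro ⟨k, hk⟩
    rcases Nat.eq_zero_or_pos k with h0 | h0
    · subst h0
      have hk' : x ∈ Fs D := hk
      rcases Tm_small D hD hk' with h1 | h1
      · rw [h1]; exact ⟨0, hk'⟩
      · rw [h1]
        refine ⟨1, ?_⟩
        rw [Function.iterate_one, Tm_D D hD]
        exact ⟨le_rfl, by omega⟩
    · obtain ⟨j, rfl⟩ : ∃ j, k = j + 1 := ⟨k - 1, by omega⟩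
      exact ⟨j, by rwa [Function.iterate_succ_apply] at hk⟩
  · rintro ⟨k, hk⟩
    exact ⟨k + 1, by rwa [Function.iterate_succ_apply]⟩

/-- `T^k n` is the term of the orbit of `n` under `F_D` number `cst k n` -/
theorem iter (D : ℕ) (hD : 2 ≤ D) (k : ℕ) : ∀ n : ℕ, 1 ≤ n →
    1 ≤ (F D)^[cst D (mD D) (rD D) eD k n] n ∧
    (Tm D (mD D) (rD D))^[k] (n : ℤ) = (((F D)^[cst D (mD D) (rD D) eD k n] n : ℕ) : ℤ) := by
  induction k with
  | zero => intro n hn; exact ⟨hn, rfl⟩
  | succ k ih =>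
    intro n hn
    obtain ⟨h1, h2⟩ := F_Tm D hD n hn
    obtain ⟨h3, h4⟩ := ih _ h1
    rw [cst, toNat_mod, Function.iterate_succ_apply, h2, Nat.add_comm (2 - eD (n % D)),
      Function.iterate_add_apply]
    exact ⟨h3, h4⟩

/-- descending in terms of the accelerated map -/
theorem mem_UC (D : ℕ) (hD : 2 ≤ D) (K n : ℕ) (hn : 1 ≤ n) :
    (n : ℤ) ∈ UC D (mD D) (rD D) eD (Fs D) K ↔ ∃ j ≤ K, (F D)^[j] n < D := by
  constructor
  · rintro ⟨k, h1, h2⟩
    refine ⟨_, h2, ?_⟩
    rw [(iter D hD k n hn).2] at h1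
    exact_mod_cast h1.2
  · rintro ⟨j, hj, hlt⟩
    have key : ∀ j n : ℕ, 1 ≤ n → (F D)^[j] n < D →
        ∃ k : ℕ, (Tm D (mD D) (rD D))^[k] (n : ℤ) ∈ Fs D ∧ cst D (mD D) (rD D) eD k n ≤ j := by
      intro j
      induction j using Nat.strong_induction_on with
      | _ j ih =>
        intro n hn hlt
        rcases Nat.eq_zero_or_pos j with h0 | h0
        · subst h0
          have hlt' : n < D := hlt
          exact ⟨0, show (n : ℤ) ∈ Fs D from ⟨by exact_mod_cast hn, by exact_mod_cast hlt'⟩, le_rfl⟩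
        · obtain ⟨g1, g2⟩ := F_Tm D hD n hn
          by_cases hm : n % D = 0
          · have e1 : 2 - eD (n % D) = 1 := by rw [hm]; rfl
            rw [e1, Function.iterate_one] at g1 g2
            obtain ⟨i, rfl⟩ : ∃ i, j = i + 1 := ⟨j - 1, by omega⟩
            rw [Function.iterate_succ_apply] at hlt
            obtain ⟨k, hk1, hk2⟩ := ih i (by omega) _ g1 hlt
            refine ⟨k + 1, ?_, ?_⟩
            · rw [Function.iterate_succ_apply, g2]; exact hk1
            · rw [cst, toNat_mod, e1, g2]; omega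
          · have e1 : 2 - eD (n % D) = 2 := by
              unfold eD
              rw [if_neg hm]
            rw [e1] at g1 g2
            have h2 : j ≠ 1 := by
              rintro rfl
              rw [Function.iterate_one] at hlt
              have := F_mid D hD n hn hm
              omega
            obtain ⟨i, rfl⟩ : ∃ i, j = i + 2 := ⟨j - 2, by omega⟩
            rw [Function.iterate_add_apply] at hlt
            obtain ⟨k, hk1, hk2⟩ := ih i (by omega) _ g1 hlt
            refine ⟨k + 1, ?_, ?_⟩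
            · rw [Function.iterate_succ_apply, g2]; exact hk1
            · rw [cst, toNat_mod, e1, g2]; omega
    obtain ⟨k, hk1, hk2⟩ := key j n hn hlt
    exact ⟨k, hk1, hk2.trans hj⟩

theorem Mw_eq (D : ℕ) (k : ℕ) (x : ℤ) : k ≤ cst D (mD D) (rD D) eD k x ∧
    Mw (mD D) (wd D (mD D) (rD D) k x) = ((D : ℤ) + 1) ^ (cst D (mD D) (rD D) eD k x - k) := by
  induction k generalizing x with
  | zero => simp [cst, wd, Mw]
  | succ k ih =>
    obtain ⟨h1, h2⟩ := ih (Tm D (mD D) (rD D) x)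
    have h3 : Mw (mD D) (wd D (mD D) (rD D) (k + 1) x) =
        mD D (x % D).toNat * Mw (mD D) (wd D (mD D) (rD D) k (Tm D (mD D) (rD D) x)) := by
      simp [wd, Mw]
    rw [h3, h2, cst]
    by_cases h0 : (x % (D : ℤ)).toNat = 0
    · rw [h0]
      have e1 : 2 - eD 0 = 1 := rfl
      have e2 : mD D 0 = 1 := rfl
      rw [e1, e2, one_mul]
      refine ⟨by omega, ?_⟩
      congr 1
      omega
    · have e1 : 2 - eD (x % (D : ℤ)).toNat = 2 := by
        unfold eD
        rw [if_neg h0]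
      have e2 : mD D (x % (D : ℤ)).toNat = (D : ℤ) + 1 := by
        unfold mD
        rw [if_neg h0]
      rw [e1, e2]
      refine ⟨by omega, ?_⟩
      rw [← pow_succ']
      congr 1
      omega

theorem det (D : ℕ) (hD : 2 ≤ D) (k : ℕ) (x y : ℤ)
    (h : Mw (mD D) (wd D (mD D) (rD D) k x) = Mw (mD D) (wd D (mD D) (rD D) k y)) :
    cst D (mD D) (rD D) eD k x = cst D (mD D) (rD D) eD k y := by
  obtain ⟨h1, h2⟩ := Mw_eq D k x
  obtain ⟨h3, h4⟩ := Mw_eq D k y
  rw [h2, h4] at h
  have h5 : (1 : ℤ) < (D : ℤ) + 1 := by omega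
  have h6 := Int.pow_right_injective (by omega : 1 < ((D : ℤ) + 1).natAbs) h
  omega

end Pool.Agent.R623.LN.W
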